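import Pool.Agent.X198.SuitTop

/-!
# A subgyrogroup without suitable set of a strongly topologically orderable gyrogroup with one
-/

set_option autoImplicit false
set_option linter.style.haveILetI false

namespace Pool.Agent.Results.MP_1c9ee6_al.NoSuitable

open Set Pool.Agent.X198.SuitB Pool.Agent.Helper761.Om

/-- Gyrogroup structures on a type. -/
structure Gyro (G : Type) where
  /-- the operation -/
  op : G → G → G
  /-- the identity -/
  one : G
  /-- the inverse -/
  inv : G → G
  /-- the gyrations -/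
  gyr : G → G → (G ≃ G)
  one_op : ∀ a, op one a = a
  inv_op : ∀ a, op (inv a) a = one
  gyr_op : ∀ a b x y, gyr a b (op x y) = op (gyr a b x) (gyr a b y)
  gyr_assoc : ∀ a b c, op a (op b c) = op (op a b) (gyr a b c)
  gyr_loop : ∀ a b, gyr a b = gyr (op a b) b

variable {G : Type}

/-- The operation and the inverse are continuous. -/
def IsTopological [TopologicalSpace G] (g : Gyro G) : Prop :=
  Continuous (fun p : G × G => g.op p.1 p.2) ∧ Continuous g.inv

/-- There is a neighbourhood base at the identity of sets invariant under all gyrations. -/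
def IsStrong [TopologicalSpace G] (g : Gyro G) : Prop :=
  ∃ B : Set (Set G), (∀ U ∈ B, U ∈ nhds g.one) ∧ (∀ V ∈ nhds g.one, ∃ U ∈ B, U ⊆ V) ∧
    ∀ U ∈ B, ∀ x y, g.gyr x y '' U = U

/-- Subgyrogroups. -/
def IsSub (g : Gyro G) (H : Set G) : Prop :=
  H.Nonempty ∧ (∀ a ∈ H, g.inv a ∈ H) ∧ ∀ a ∈ H, ∀ b ∈ H, g.op a b ∈ H

/-- The subgyrogroup generated by a set. -/
def gen (g : Gyro G) (S : Set G) : Set G := ⋂₀ {H | IsSub g H ∧ S ⊆ H}

/-- `S` is a suitable set for the subgyrogroup `K` with the subspace topology: it is a discrete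
subset of `K`, its union with the identity is closed in `K`, and it generates a dense
subgyrogroup of `K`. -/
def IsSuitable [TopologicalSpace G] (g : Gyro G) (K S : Set G) : Prop :=
  S ⊆ K ∧ DiscreteTopology S ∧ (∃ F, IsClosed F ∧ F ∩ K = S ∪ {g.one}) ∧ K ⊆ closure (gen g S)

/-- Groups are gyrogroups. -/
def ofGroup (G : Type) [Group G] : Gyro G where
  op a b := a * b
  one := 1
  inv a := a⁻¹
  gyr _ _ := Equiv.refl G
  one_op := one_mul
  inv_op := inv_mul_cancel
  gyr_op _ _ _ _ := rfl
  gyr_assoc a b c := (mul_assoc a b c).symm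
  gyr_loop _ _ := rfl

theorem gen_ofGroup [Group G] (S : Set G) :
    gen (ofGroup G) S = ((Subgroup.closure S : Subgroup G) : Set G) := by
  apply Subset.antisymm
  · refine sInter_subset_of_mem ⟨⟨⟨1, one_mem _⟩, fun a ha => inv_mem ha,
      fun a ha b hb => mul_mem ha hb⟩, Subgroup.subset_closure⟩
  · refine subset_sInter ?_
    rintro H ⟨⟨⟨a, ha⟩, h1, h2⟩, h3⟩
    have h1' : (1 : G) ∈ H := by
      have := h2 _ (h1 a ha) a ha
      change a⁻¹ * a ∈ H at this
      rwa [inv_mul_cancel] at this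
    let K : Subgroup G :=
      { carrier := H
        mul_mem' := fun ha hb => h2 _ ha _ hb
        one_mem' := h1'
        inv_mem' := fun ha => h1 _ ha }
    exact (Subgroup.closure_le K).2 h3

variable {ι : Type} [LinearOrder ι] [WellFoundedLT ι] [Nonempty ι]

/-- The group of the example. -/
abbrev GT (C : ι → Set ι) : Type := FreeGroup (BT C) × BT C

/-- Its topology. -/
@[reducible] def tG (C : ι → Set ι) : TopologicalSpace (GT C) :=
  @instTopologicalSpaceProd _ _ ⊥ (tB C)

/-- A linear order on the discrete factor. -/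
noncomputable abbrev loF (C : ι → Set ι) : LinearOrder (FreeGroup (BT C)) :=
  (exists_wellFoundedLT (FreeGroup (BT C))).choose

/-- Its order. -/
noncomputable abbrev loG (C : ι → Set ι) : LinearOrder (GT C) :=
  letI := loF C
  letI := loB C
  LinearOrder.lift' (fun x : GT C => toLex x) toLex.injective

variable {C : ι → Set ι}

theorem lt_iffG {x y : GT C} : (loG C).lt x y ↔
    (loF C).lt x.1 y.1 ∨ (x.1 = y.1 ∧ (loB C).lt x.2 y.2) := by
  letI := loF C
  letI := loB C
  exact Prod.Lex.lt_iff (x := toLex x) (y := toLex y)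

theorem isOpenG (s : Set (GT C)) : @IsOpen _ (tG C) s ↔
    ∀ p ∈ s, ∃ δ, ∀ y : BT C, EqOn y.fn p.2.fn (Iio δ) → (p.1, y) ∈ s := by
  letI : TopologicalSpace (FreeGroup (BT C)) := ⊥
  letI := tB C
  have : DiscreteTopology (FreeGroup (BT C)) := ⟨rfl⟩
  constructor
  · rintro hs ⟨d, x⟩ hp
    have h1 : IsOpen ((fun y : BT C => (d, y)) ⁻¹' s) :=
      hs.preimage (Continuous.prodMk_right d)
    exact h1 x hp
  · intro h
    rw [isOpen_iff_mem_nhds]
    rintro ⟨d, x⟩ hp
    obtain ⟨δ, hδ⟩ := h _ hp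
    have h1 : {d} ∈ nhds d := (isOpen_discrete {d}).mem_nhds rfl
    have h2 : {y : BT C | EqOn y.fn x.fn (Iio δ)} ∈ nhds x :=
      (isOpen_cyl x δ).mem_nhds fun i _ => rfl
    refine Filter.mem_of_superset (prod_mem_nhds h1 h2) ?_
    rintro ⟨e, y⟩ ⟨he, hy⟩
    have he' : e = d := he
    rw [he']
    exact hδ y hy

theorem ordTopG (hu : ∀ A : Set ι, A.Countable → ∃ b, ∀ a ∈ A, a < b) :
    @OrderTopology (GT C) (tG C) (loG C).toPreorder := by
  letI := tG C
  letI := loG C
  refine ⟨le_antisymm ?_ ?_⟩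
  · refine le_generateFrom ?_
    rintro s ⟨a, rfl | rfl⟩
    · refine (isOpenG _).2 ?_
      rintro ⟨d, x⟩ hp
      rcases lt_iffG.1 hp with h | ⟨h1, h2⟩
      · exact ⟨Classical.arbitrary ι, fun y _ => lt_iffG.2 (Or.inl h)⟩
      · obtain ⟨i, hi1, hi2⟩ := lt_iff.1 h2
        obtain ⟨δ, hδ⟩ := hu {i} (countable_singleton i)
        refine ⟨δ, fun y hy => lt_iffG.2 (Or.inr ⟨h1, lt_iff.2 ⟨i, fun j hj => ?_, ?_⟩⟩)⟩
        · rw [hi1 j hj]; exact (hy (hj.trans (hδ i rfl))).symm
        · change _ < y.fn i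
          rw [hy (hδ i rfl)]; exact hi2
    · refine (isOpenG _).2 ?_
      rintro ⟨d, x⟩ hp
      rcases lt_iffG.1 hp with h | ⟨h1, h2⟩
      · exact ⟨Classical.arbitrary ι, fun y _ => lt_iffG.2 (Or.inl h)⟩
      · obtain ⟨i, hi1, hi2⟩ := lt_iff.1 h2
        obtain ⟨δ, hδ⟩ := hu {i} (countable_singleton i)
        refine ⟨δ, fun y hy => lt_iffG.2 (Or.inr ⟨h1, lt_iff.2 ⟨i, fun j hj => ?_, ?_⟩⟩)⟩
        · rw [← hi1 j hj]; exact (hy (hj.trans (hδ i rfl)))
        · change y.fn i < _
          rw [hy (hδ i rfl)]; exact hi2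
  · intro s hs
    have hs1 := (isOpenG s).1 hs
    have hs' : s = ⋃ I ∈ {I : Set (GT C) | (∃ a b, I = Ioi a ∩ Iio b) ∧ I ⊆ s}, I := by
      apply Subset.antisymm
      · rintro ⟨d, x⟩ hx
        obtain ⟨δ, hδ⟩ := hs1 _ hx
        rw [mem_iUnion₂]
        have hm := mem_Ioo x δ
        refine ⟨Ioi (d, x * (mkB (chi_mem_BB δ))⁻¹) ∩ Iio (d, x * mkB (chi_mem_BB δ)),
          ⟨⟨_, _, rfl⟩, ?_⟩, lt_iffG.2 (Or.inr ⟨rfl, hm.1⟩), lt_iffG.2 (Or.inr ⟨rfl, hm.2⟩)⟩
        rintro ⟨e, y⟩ ⟨h1, h2⟩
        have h1' := lt_iffG.1 h1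
        have h2' := lt_iffG.1 h2
        have hed : e = d := by
          letI := loF C
          rcases h1' with h | h
          · rcases h2' with h' | h'
            · exact absurd h (lt_asymm (show e < d from h'))
            · exact h'.1
          · exact h.1.symm
        subst hed
        refine hδ y (Ioo_sub ⟨?_, ?_⟩)
        · rcases h1' with h | h
          · letI := loF C
            exact absurd (show e < e from h) (lt_irrefl _)
          · exact h.2
        · rcases h2' with h | h
          · letI := loF C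
            exact absurd (show e < e from h) (lt_irrefl _)
          · exact h.2
      · exact iUnion₂_subset fun I hI => hI.2
    rw [hs']
    refine @isOpen_biUnion _ _ (TopologicalSpace.generateFrom _) _ _ ?_
    rintro I ⟨⟨a, b, rfl⟩, -⟩
    refine (TopologicalSpace.generateFrom _).isOpen_inter _ _ ?_ ?_
    · exact TopologicalSpace.isOpen_generateFrom_of_mem ⟨a, Or.inl rfl⟩
    · exact TopologicalSpace.isOpen_generateFrom_of_mem ⟨b, Or.inr rfl⟩

/-- There are a strongly topologically orderable gyrogroup with a closed suitable set and a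
subgyrogroup of it without suitable set. -/
theorem result :
    ∃ (G : Type) (_ : TopologicalSpace G) (_ : LinearOrder G) (g : Gyro G) (H : Set G),
      OrderTopology G ∧ IsTopological g ∧ IsStrong g ∧ (∃ S, IsSuitable g univ S ∧ IsClosed S) ∧
      IsSub g H ∧ ¬ ∃ S, IsSuitable g H S := by
  obtain ⟨ι, i1, i2, hc, hu⟩ := exists_omega1
  obtain ⟨b, -⟩ := hu ∅ countable_empty
  have : Nonempty ι := ⟨b⟩
  obtain ⟨C, hC⟩ := exists_ladder hc
  have hT : @IsTopologicalGroup (BT C) (tB C) _ := topGroup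
  letI tF : TopologicalSpace (FreeGroup (BT C)) := ⊥
  letI := tB C
  have hdF : DiscreteTopology (FreeGroup (BT C)) := ⟨rfl⟩
  have : IsTopologicalGroup (FreeGroup (BT C)) := inferInstance
  refine ⟨GT C, tG C, loG C, ofGroup (GT C), {p | p.1 = 1}, ordTopG hu,
    ⟨continuous_mul, continuous_inv⟩, ⟨{U | U ∈ nhds (1 : GT C)}, fun U hU => hU,
      fun V hV => ⟨V, hV, Subset.rfl⟩, fun U _ x y => ?_⟩, ?_, ?_, ?_⟩
  · exact image_id U
  · let S : Set (GT C) := {p | ∃ b : BT C, p.1 = FreeGroup.of b ∧ (p.2 = b ∨ p.2 = 1)}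
    have hfin : ∀ p : GT C, ∃ δ, ∀ y : BT C, EqOn y.fn p.2.fn (Iio δ) → (p.1, y) ∈ S →
        (p.1, y) = p := by
      rintro ⟨d, x⟩
      by_cases hd : ∃ b, d = FreeGroup.of b
      · obtain ⟨b, rfl⟩ := hd
        have h1 : ∀ z : BT C, ∃ δ, EqOn z.fn x.fn (Iio δ) → z = x := by
          intro z
          by_cases hzx : z = x
          · exact ⟨Classical.arbitrary ι, fun _ => hzx⟩
          · have : ∃ i, z.fn i ≠ x.fn i := by
              by_contra! h
              exact hzx (BT.fn_inj (funext h))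
            obtain ⟨i, hi⟩ := this
            obtain ⟨δ, hδ⟩ := hu {i} (countable_singleton i)
            exact ⟨δ, fun h => absurd (h (hδ i rfl)) hi⟩
        obtain ⟨δ1, h1'⟩ := h1 b
        obtain ⟨δ2, h2'⟩ := h1 1
        refine ⟨max δ1 δ2, ?_⟩
        rintro y hy ⟨b', hb', hy'⟩
        have hbb : b = b' := FreeGroup.of_injective hb'
        subst hbb
        rcases hy' with h | h
        · have h : y = b := h
          subst h
          rw [h1' (hy.mono (Iio_subset_Iio (le_max_left _ _)))]
        · have h : y = 1 := h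
          subst h
          rw [h2' (hy.mono (Iio_subset_Iio (le_max_right _ _)))]
      · refine ⟨Classical.arbitrary ι, ?_⟩
        rintro y _ ⟨b', hb', _⟩
        exact absurd ⟨b', hb'⟩ hd
    have hcl : ∀ T ⊆ S, IsClosed T := by
      intro T hT
      rw [← isOpen_compl_iff]
      refine (isOpenG _).2 fun p hp => ?_
      obtain ⟨δ, hδ⟩ := hfin p
      exact ⟨δ, fun y hy hyT => hp (hδ y hy (hT hyT) ▸ hyT)⟩
    refine ⟨S, ⟨subset_univ _, ?_, ⟨S ∪ {1}, ?_, by rw [inter_univ]; rfl⟩, ?_⟩, hcl S Subset.rfl⟩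
    · rw [discreteTopology_subtype_iff']
      intro p hp
      refine ⟨(S \ {p})ᶜ, (hcl _ diff_subset).isOpen_compl, ?_⟩
      ext q
      simp only [mem_inter_iff, mem_compl_iff, mem_diff, mem_singleton_iff, not_and, not_not]
      constructor
      · rintro ⟨h1, h2⟩
        exact h1 h2
      · rintro rfl
        exact ⟨fun _ => rfl, hp⟩
    · refine (hcl S Subset.rfl).union ?_
      rw [← isOpen_compl_iff]
      refine (isOpenG _).2 ?_
      rintro ⟨d, x⟩ hp
      by_cases hx : x = 1
      · refine ⟨Classical.arbitrary ι, fun y _ hy => hp ?_⟩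
        have h1 : d = 1 := congrArg Prod.fst (show (d, y) = 1 from hy)
        rw [h1, hx]
        rfl
      · have : ∃ i, (1 : BT C).fn i ≠ x.fn i := by
          by_contra! h
          exact hx (BT.fn_inj (funext h)).symm
        obtain ⟨i, hi⟩ := this
        obtain ⟨δ, hδ⟩ := hu {i} (countable_singleton i)
        refine ⟨δ, fun y hy hy1 => hi ?_⟩
        have h1 : y = 1 := congrArg Prod.snd (show (d, y) = 1 from hy1)
        rw [← h1]
        exact hy (hδ i rfl)
    · rw [gen_ofGroup]
      have h1 : ∀ b : BT C, ((FreeGroup.of b, 1) : GT C) ∈ Subgroup.closure S := fun b =>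
        Subgroup.subset_closure ⟨b, rfl, Or.inr rfl⟩
      have h2 : ∀ b : BT C, ((1, b) : GT C) ∈ Subgroup.closure S := by
        intro b
        have h3 : ((FreeGroup.of b, b) : GT C) ∈ Subgroup.closure S :=
          Subgroup.subset_closure ⟨b, rfl, Or.inl rfl⟩
        have h4 := mul_mem (inv_mem (h1 b)) h3
        have h5 : ((FreeGroup.of b, 1) : GT C)⁻¹ * (FreeGroup.of b, b) = (1, b) := by
          ext <;> simp
        rwa [h5] at h4
      have h3 : ∀ d : FreeGroup (BT C), ((d, 1) : GT C) ∈ Subgroup.closure S := by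
        intro d
        have hd : d ∈ Subgroup.closure (range (FreeGroup.of : BT C → FreeGroup (BT C))) := by
          rw [FreeGroup.closure_range_of]
          trivial
        refine Subgroup.closure_induction
          (p := fun d _ => ((d, 1) : GT C) ∈ Subgroup.closure S) ?_ ?_ ?_ ?_ hd
        · rintro _ ⟨b, rfl⟩
          exact h1 b
        · exact one_mem _
        · intro x y _ _ hx hy
          have := mul_mem hx hy
          rwa [Prod.mk_mul_mk, one_mul] at this
        · intro x _ hx
          have := inv_mem hx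
          rwa [Prod.inv_mk, inv_one] at this
      rintro ⟨d, b⟩ _
      apply subset_closure
      have := mul_mem (h3 d) (h2 b)
      rwa [Prod.mk_mul_mk, one_mul, mul_one] at this
  · refine ⟨⟨1, rfl⟩, fun a ha => ?_, fun a ha b hb => ?_⟩
    · change a.1⁻¹ = 1
      rw [show a.1 = 1 from ha, inv_one]
    · change a.1 * b.1 = 1
      rw [show a.1 = 1 from ha, show b.1 = 1 from hb, one_mul]
  · rintro ⟨S, hSH, hSd, ⟨F, hF, hFH⟩, hdense⟩
    let j : BT C →* GT C := MonoidHom.inr _ _
    have hj : ∀ x, j x = (1, x) := fun x => rfl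
    have hjc : Continuous j := Continuous.prodMk_right 1
    have hjS : j '' (j ⁻¹' S) = S := by
      apply Subset.antisymm (image_preimage_subset _ _)
      rintro ⟨d, x⟩ hp
      have hd : d = 1 := hSH hp
      subst hd
      exact ⟨x, hp, rfl⟩
    refine no_suitable_tB hc hu hC (j ⁻¹' S) ?_ ?_ ?_
    · rw [discreteTopology_subtype_iff']
      intro x hx
      obtain ⟨U, hU, hUS⟩ := (discreteTopology_subtype_iff'.1 hSd) (j x) hx
      refine ⟨j ⁻¹' U, hU.preimage hjc, ?_⟩
      rw [← preimage_inter, hUS]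
      ext y
      simp [hj]
    · have : j ⁻¹' S ∪ {1} = j ⁻¹' F := by
        ext x
        have h1 : j x ∈ F ∩ {p | p.1 = 1} ↔ j x ∈ S ∪ {1} := by
          rw [hFH]
          exact Iff.rfl
        constructor
        · rintro (h | h)
          · exact (h1.2 (Or.inl h)).1
          · refine (h1.2 (Or.inr ?_)).1
            rw [mem_singleton_iff.1 h]
            exact map_one j
        · intro h
          rcases h1.1 ⟨h, rfl⟩ with h | h
          · exact Or.inl h
          · exact Or.inr (congrArg Prod.snd (mem_singleton_iff.1 h))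
      rw [this]
      exact hF.preimage hjc
    · intro x
      rw [mem_closure_iff]
      intro U hU hx
      have h1 : ((1, x) : GT C) ∈ closure (gen (ofGroup (GT C)) S) := hdense rfl
      rw [gen_ofGroup] at h1
      have h2 : IsOpen (univ ×ˢ U : Set (GT C)) := isOpen_univ.prod hU
      obtain ⟨⟨d, y⟩, ⟨-, hy1⟩, hy2⟩ := mem_closure_iff.1 h1 _ h2 ⟨mem_univ _, hx⟩
      have h3 : (d, y) ∈ (Subgroup.closure (j ⁻¹' S)).map j := by
        rw [MonoidHom.map_closure, hjS]
        exact hy2
      obtain ⟨z, hz, hzy⟩ := h3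
      refine ⟨y, hy1, ?_⟩
      have : z = y := congrArg Prod.snd hzy
      rwa [this] at hz

end Pool.Agent.Results.MP_1c9ee6_al.NoSuitable
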